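import Pool.Agent.Helper1.TOP.Cubic
import Pool.Agent.Helper75.GX.Fold3
import Pool.Agent.Helper97.O3.Cases
import Pool.Agent.Helper51.GX.Final

/-!
# The global induction: an internally 4-connected minimal counterexample does not exist
-/

set_option autoImplicit false

namespace Pool.Agent.Helper57.TOP

open SimpleGraph Pool.Agent.Helper57.TOK Pool.Agent.Helper57.TD Pool.Agent.Helper82.TK
open Pool.Agent.Helper51.GX Pool.Agent.Helper1.GL

variable {V : Type*}

/-- The base facts of the fold analysis. -/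
theorem GMin.base [Finite V] {G : SimpleGraph V} {U : Set V} (hM : GMin G U) (hcut : Cut G U)
    (hdeg : ∀ y ∈ U, 3 ≤ (G.neighborSet y).ncard) : Pool.Agent.Helper97.OT.Base G U where
  edge_mem := hM.ex.edge_mem
  deg3 := hdeg
  P1 := (hM.i4 hcut hdeg).gP1
  P2 := (hM.i4 hcut hdeg).gP2 hM.bad
  I4 := hcut
  ind3 := (hM.i4 hcut hdeg).gind3
  dens := by
    have h1 := hM.ex.dens
    rwa [odG_one] at h1
  noT := by
    rw [hasTOK4_iff]
    exact hM.bad

/-- A minimal counterexample has a small cut or a vertex of degree at most two. -/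
theorem GMin.false_of_cut [Finite V] [Nonempty V] {G : SimpleGraph V} {U : Set V}
    (hM : GMin G U) (hcut : Cut G U) (hdeg : ∀ y ∈ U, 3 ≤ (G.neighborSet y).ncard) : False := by
  have hcore : GCore G U := hM.gcore hcut hdeg
    (Pool.Agent.Helper75.GX.fold_field (hM.base hcut hdeg) ((hM.i4 hcut hdeg).gTRI hM.bad)
      (fun _ _ _ _ _ _ _ _ hO => hO.false)
      (fun G' U' hex hlt => hM.IH G' U' hex (Or.inl hlt)))
  obtain ⟨y, hy, h3⟩ := hM.exists_cubic hcut hdeg
  exact hcore.noCubic hy h3

end Pool.Agent.Helper57.TOP
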