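import Pool.Agent.Helper57.TOP.Defs
import Pool.Agent.Helper1.GL.Tri

/-!
# The global induction: there is a cubic vertex; the interface `GCore`
-/

set_option autoImplicit false

namespace Pool.Agent.Helper57.TOP

open SimpleGraph Pool.Agent.Helper57.TOK Pool.Agent.Helper57.TD Pool.Agent.Helper82.TK
open Pool.Agent.Helper51.GX Pool.Agent.Helper1.GL

variable {V : Type*}

/-- A minimal counterexample without small cuts and small degrees is in the class `I4`. -/
theorem GMin.i4 [Finite V] {G : SimpleGraph V} {U : Set V} (hM : GMin G U) (hcut : Cut G U)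
    (hdeg : ∀ y ∈ U, 3 ≤ (G.neighborSet y).ncard) : I4 G (fun _ => 1) U where
  edge_mem := hM.ex.edge_mem
  deg3 := hdeg
  cut := hcut
  idx := by
    intro z1 z2 κ hκ
    apply hM.bad
    have h1 := hM.ex.index_two hκ theorem_goal
    rwa [hasTOK4_iff] at h1

lemma edge_count_on [Finite V] {G : SimpleGraph V} {U : Set V}
    (h : ∀ y ∈ U, 4 ≤ (G.neighborSet y).ncard) : 2 * U.ncard ≤ G.edgeSet.ncard := by
  classical
  have := Fintype.ofFinite V
  have h1 := G.sum_degrees_eq_twice_card_edges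
  have h2 : ∀ y ∈ U.toFinset, 4 ≤ G.degree y := by
    intro y hy
    have := h y (Set.mem_toFinset.1 hy)
    rwa [Set.ncard_eq_toFinset_card', ← SimpleGraph.neighborFinset_def,
      SimpleGraph.card_neighborFinset_eq_degree] at this
  have h3 : ∑ _v ∈ U.toFinset, 4 ≤ ∑ v ∈ U.toFinset, G.degree v :=
    Finset.sum_le_sum (fun v hv => h2 v hv)
  have h5 : ∑ v ∈ U.toFinset, G.degree v ≤ ∑ v, G.degree v :=
    Finset.sum_le_sum_of_subset (Finset.subset_univ _)
  rw [Finset.sum_const, smul_eq_mul] at h3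
  have h4 : G.edgeSet.ncard = G.edgeFinset.card := by
    rw [Set.ncard_eq_toFinset_card']; rfl
  rw [Set.ncard_eq_toFinset_card' U, h4]
  omega

/-- A minimal counterexample without small cuts and small degrees has a cubic vertex. -/
theorem GMin.exists_cubic [Finite V] [Nonempty V] {G : SimpleGraph V} {U : Set V}
    (hM : GMin G U)
    (hcut : Cut G U) (hdeg : ∀ y ∈ U, 3 ≤ (G.neighborSet y).ncard) :
    ∃ y ∈ U, (G.neighborSet y).ncard = 3 := by
  classical
  by_contra hno
  push Not at hno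
  have hI := hM.i4 hcut hdeg
  have h4 : ∀ y ∈ U, 4 ≤ (G.neighborSet y).ncard := by
    intro y hy
    have h1 := hdeg y hy
    have h2 := hno y hy
    omega
  -- an edge
  obtain ⟨a, b, hab⟩ : ∃ a b, G.Adj a b := by
    by_contra hcon
    push Not at hcon
    obtain ⟨w⟩ := ‹Nonempty V›
    exact hM.ex.index2 w (fun _ => 0) (fun u v _ _ huv => absurd huv (hcon u v))
  set G' : SimpleGraph V := G.deleteEdges {s(a, b)} with hG'
  have hadj : ∀ u v, G'.Adj u v ↔ G.Adj u v ∧ s(u, v) ≠ s(a, b) := by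
    intro u v
    rw [hG', SimpleGraph.deleteEdges_adj, Set.mem_singleton_iff]
  have hle : G' ≤ G := fun u v huv => ((hadj u v).1 huv).1
  have hE : G'.edgeSet = G.edgeSet \ {s(a, b)} := by
    rw [hG', SimpleGraph.edgeSet_deleteEdges]
  have hEc : G'.edgeSet.ncard + 1 = G.edgeSet.ncard := by
    rw [hE, Set.ncard_sdiff_singleton_of_mem (show s(a, b) ∈ G.edgeSet from hab)]
    have : 0 < G.edgeSet.ncard := (Set.ncard_pos (Set.toFinite _)).2 ⟨s(a, b), hab⟩
    omega
  have hNs : ∀ y, G.neighborSet y ⊆ insert (if y = a then b else a) (G'.neighborSet y) := by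
    intro y z hz
    have hyz : G.Adj y z := hz
    by_cases h1 : s(y, z) = s(a, b)
    · left
      rw [Sym2.eq_iff] at h1
      rcases h1 with ⟨h2, h3⟩ | ⟨h2, h3⟩
      · rw [if_pos h2, h3]
      · have h5 : y ≠ a := by
          intro h5
          exact hab.ne (h5.symm.trans h2)
        rw [if_neg h5, h3]
    · exact Or.inr ((hadj y z).2 ⟨hyz, h1⟩)
  have hdeg' : ∀ y ∈ U, 3 ≤ (G'.neighborSet y).ncard := by
    intro y hy
    have h1 := Set.ncard_le_ncard (hNs y) (Set.toFinite _)
    have h2 := Set.ncard_insert_le (if y = a then b else a) (G'.neighborSet y)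
    have h3 := h4 y hy
    omega
  have hNout : ∀ y, y ≠ a → y ≠ b → G'.neighborSet y = G.neighborSet y := by
    intro y h1 h2
    ext z
    constructor
    · intro hz
      exact hle hz
    · intro hz
      refine (hadj y z).2 ⟨hz, ?_⟩
      intro h3
      rw [Sym2.eq_iff] at h3
      rcases h3 with ⟨h5, -⟩ | ⟨h5, -⟩
      · exact h1 h5
      · exact h2 h5
  have haU : a ∈ U := hM.ex.edge_mem _ _ hab
  have hbU : b ∈ U := hM.ex.edge_mem _ _ hab.symm
  -- the only separated pair
  have hNsub : ∀ Y : Set V, ∀ x y, ((x = a ∧ y = b) ∨ (x = b ∧ y = a)) → x ∈ Y → y ∉ Y →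
      Nb G Y = insert y (Nb G' Y) := by
    intro Y x y hxy hx hy
    have hxy' : G.Adj x y := by
      rcases hxy with ⟨rfl, rfl⟩ | ⟨rfl, rfl⟩
      · exact hab
      · exact hab.symm
    ext v
    constructor
    · rintro ⟨hv, u, hu, huv⟩
      by_cases h1 : s(u, v) = s(a, b)
      · left
        rw [Sym2.eq_iff] at h1
        rcases hxy with ⟨rfl, rfl⟩ | ⟨rfl, rfl⟩
        · rcases h1 with ⟨-, h3⟩ | ⟨h2, h3⟩
          · exact h3
          · exact absurd (h3 ▸ hx) hv
        · rcases h1 with ⟨h2, h3⟩ | ⟨h2, h3⟩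
          · exact absurd (h3 ▸ hx) hv
          · exact h3
      · exact Or.inr ⟨hv, u, hu, (hadj u v).2 ⟨huv, h1⟩⟩
    · rintro (rfl | ⟨hv, u, hu, huv⟩)
      · exact ⟨hy, x, hx, hxy'⟩
      · exact ⟨hv, u, hu, hle huv⟩
  have hNeq : ∀ Y : Set V, (¬ ∃ x y, ((x = a ∧ y = b) ∨ (x = b ∧ y = a)) ∧ x ∈ Y ∧
      y ∉ Y ∧ y ∉ Nb G' Y) → Nb G Y = Nb G' Y := by
    intro Y hY
    ext v
    constructor
    · rintro ⟨hv, u, hu, huv⟩
      by_cases h1 : s(u, v) = s(a, b)
      · by_contra h2
        apply hY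
        rw [Sym2.eq_iff] at h1
        exact ⟨u, v, h1, hu, hv, h2⟩
      · exact ⟨hv, u, hu, (hadj u v).2 ⟨huv, h1⟩⟩
    · rintro ⟨hv, u, hu, huv⟩
      exact ⟨hv, u, hu, hle huv⟩
  have hsym : ∀ x y, ((x = a ∧ y = b) ∨ (x = b ∧ y = a)) → G.Adj x y ∧ x ∈ U ∧ y ∈ U ∧
      ∀ z, z ≠ x → z ≠ y → G'.neighborSet z = G.neighborSet z := by
    rintro x y (⟨rfl, rfl⟩ | ⟨rfl, rfl⟩)
    · exact ⟨hab, haU, hbU, hNout⟩
    · exact ⟨hab.symm, hbU, haU, fun z h1 h2 => hNout z h2 h1⟩
  have hex : Ex3 G' (One V) U := by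
    refine ⟨fun u v huv => hM.ex.edge_mem u v (hle huv), fun y hy => (hdeg' y hy).trans' (by
      norm_num), ?_, ?_, ?_, ?_⟩
    · -- conn
      intro Y hY h2 hN
      by_cases hsep : ∃ x y, ((x = a ∧ y = b) ∨ (x = b ∧ y = a)) ∧ x ∈ Y ∧ y ∉ Y ∧ y ∉ Nb G' Y
      · obtain ⟨x, y, hxy, hx, hy, hyN⟩ := hsep
        obtain ⟨hxy', hxU, hyU, hout⟩ := hsym x y hxy
        have hNG := hNsub Y x y hxy hx hy
        have hc := Set.ncard_insert_le y (Nb G' Y)
        have hrest := hcut Y hY h2 (by rw [hNG]; omega)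
        by_contra hlt
        -- another element of the rest
        obtain ⟨r, hr, hry⟩ : ∃ r ∈ U \ (Y ∪ Nb G' Y), r ≠ y := by
          by_contra hcon
          push Not at hcon
          have h5 : U \ (Y ∪ Nb G' Y) ⊆ {y} := hcon
          have h6 := Set.ncard_le_ncard h5 (Set.toFinite _)
          rw [Set.ncard_singleton] at h6
          omega
        have hrr : r ∈ U \ (Y ∪ Nb G Y) := by
          refine ⟨hr.1, ?_⟩
          rw [hNG]
          rintro (h5 | h5 | h5)
          · exact hr.2 (Or.inl h5)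
          · exact hry h5
          · exact hr.2 (Or.inr h5)
        have hrx : r ≠ x := by
          rintro rfl
          exact hr.2 (Or.inl hx)
        have hsub : G.neighborSet r ⊆ insert y (Nb G' Y) := by
          intro z hz
          have hrz : G.Adj r z := hz
          rw [← hNG]
          by_contra hzN
          have hzY : z ∉ Y := by
            intro hzY
            exact hrr.2 (Or.inr ⟨fun h5 => hrr.2 (Or.inl h5), z, hzY, hrz.symm⟩)
          have h5 : z ∈ U \ (Y ∪ Nb G Y) := ⟨hM.ex.edge_mem _ _ hrz.symm, by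
            rintro (h6 | h6)
            · exact hzY h6
            · exact hzN h6⟩
          exact hrz.ne (eq_of_ncard_le_one hrest hrr h5)
        have h5 := Set.ncard_le_ncard hsub (Set.toFinite _)
        have h6 := h4 r hr.1
        omega
      · have hNG := hNeq Y hsep
        rw [← hNG] at hN ⊢
        exact hcut Y hY h2 (by omega)
    · -- dens
      rw [odG_one]
      have := edge_count_on h4
      omega
    · -- index
      intro w κ hκ
      apply hI.idx w a κ
      intro u v hu hv huv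
      simp only [Set.mem_insert_iff, Set.mem_singleton_iff, not_or] at hu hv
      refine hκ u v hu.1 hv.1 ((hadj u v).2 ⟨huv, ?_⟩)
      intro h1
      rw [Sym2.eq_iff] at h1
      rcases h1 with ⟨h2, -⟩ | ⟨-, h2⟩
      · exact hu.2 h2
      · exact hv.2 h2
    · -- sparse
      intro Y hY h2 hN hne κ hb
      rw [odG_one]
      by_cases hsep : ∃ x y, ((x = a ∧ y = b) ∨ (x = b ∧ y = a)) ∧ x ∈ Y ∧ y ∉ Y ∧ y ∉ Nb G' Y
      · obtain ⟨x, y, hxy, hx, hy, hyN⟩ := hsep
        obtain ⟨hxy', hxU, hyU, hout⟩ := hsym x y hxy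
        have hNG := hNsub Y x y hxy hx hy
        have hN4 : (Nb G Y).ncard = 4 := by
          rw [hNG, Set.ncard_insert_of_notMem hyN (Set.toFinite _), hN]
        set κ' : V → ZMod 2 := fun z => if z = y then κ x + 1 else κ z with hκ'
        have ky : κ' y = κ x + 1 := by rw [hκ']; simp
        have kn : ∀ z, z ≠ y → κ' z = κ z := by
          intro z hz; rw [hκ']; simp [hz]
        have hb' : BalOn G (fun _ => 1) Y κ' := by
          intro u v hu huv
          have huy : u ≠ y := fun h5 => hy (h5 ▸ hu)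
          by_cases h1 : s(u, v) = s(a, b)
          · have h3 : u = x ∧ v = y := by
              rw [Sym2.eq_iff] at h1
              rcases hxy with ⟨h5, h6⟩ | ⟨h5, h6⟩
              · rcases h1 with ⟨h7, h8⟩ | ⟨h7, h8⟩
                · exact ⟨h7.trans h5.symm, h8.trans h6.symm⟩
                · exact absurd (h7.trans h6.symm) huy
              · rcases h1 with ⟨h7, h8⟩ | ⟨h7, h8⟩
                · exact absurd (h7.trans h6.symm) huy
                · exact ⟨h7.trans h5.symm, h8.trans h6.symm⟩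
            rw [h3.1, h3.2, ky, kn x hxy'.ne, ← add_assoc, CharTwo.add_self_eq_zero, zero_add]
          · have h3 : G'.Adj u v := (hadj u v).2 ⟨huv, h1⟩
            have hvy : v ≠ y := by
              rintro rfl
              exact hyN ⟨hy, u, hu, h3⟩
            rw [kn u huy, kn v hvy]
            exact hb u v hu h3
        have hP2 := hI.gP2 hM.bad Y hY κ' (bal_iff.2 hb') hN4
        -- densities
        have hEA : EAt G' Y = EAt G Y \ {s(a, b)} := by
          ext e
          induction e using Sym2.ind with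
          | _ u v =>
            rw [mem_EAt, Set.mem_sdiff, mem_EAt, hadj, Set.mem_singleton_iff]
            tauto
        have hmem : s(a, b) ∈ EAt G Y := by
          rw [mem_EAt]
          refine ⟨hab, ?_⟩
          rcases hxy with ⟨h5, -⟩ | ⟨h5, -⟩
          · exact Or.inl (h5 ▸ hx)
          · exact Or.inr (h5 ▸ hx)
        have hrho : rho G' Y + 1 = rho G Y := by
          unfold rho
          rw [hEA, Set.ncard_sdiff_singleton_of_mem hmem]
          have : 0 < (EAt G Y).ncard := (Set.ncard_pos (Set.toFinite _)).2 ⟨_, hmem⟩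
          omega
        have hf : fden G' Y = fden G Y - 1 := by
          unfold fden
          have : (rho G' Y : ℤ) + 1 = rho G Y := by exact_mod_cast hrho
          linarith
        have hbe : beta κ' (Nb G Y) ≤ beta κ (Nb G' Y) + 1 := by
          by_cases hm : Mono κ (Nb G' Y)
          · rw [beta_of_mono hm, hN]
            have := beta_le κ' (Nb G Y)
            rw [hN4] at this
            push_cast at this ⊢
            linarith
          · have hm' : ¬ Mono κ' (Nb G Y) := by
              intro hm'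
              apply hm
              intro u hu v hv
              have huy : u ≠ y := fun h5 => hyN (h5 ▸ hu)
              have hvy : v ≠ y := fun h5 => hyN (h5 ▸ hv)
              have := hm' u (by rw [hNG]; exact Or.inr hu) v (by rw [hNG]; exact Or.inr hv)
              rwa [kn u huy, kn v hvy] at this
            rw [beta_of_not_mono hm, beta_of_not_mono hm', hN, hN4]
            norm_num
        linarith
      · exfalso
        have hNG := hNeq Y hsep
        obtain ⟨r, hr⟩ := hne
        have hrest := hcut Y hY h2 (by rw [hNG]; omega)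
        have hrr : r ∈ U \ (Y ∪ Nb G Y) := by rw [hNG]; exact hr
        have hsub : G.neighborSet r ⊆ Nb G Y := by
          intro z hz
          have hrz : G.Adj r z := hz
          by_contra hzN
          have hzY : z ∉ Y := by
            intro hzY
            exact hrr.2 (Or.inr ⟨fun h5 => hrr.2 (Or.inl h5), z, hzY, hrz.symm⟩)
          have h5 : z ∈ U \ (Y ∪ Nb G Y) := ⟨hM.ex.edge_mem _ _ hrz.symm, by
            rintro (h6 | h6)
            · exact hzY h6
            · exact hzN h6⟩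
          exact hrz.ne (eq_of_ncard_le_one hrest hrr h5)
        have h5 := Set.ncard_le_ncard hsub (Set.toFinite _)
        have h6 := h4 r hr.1
        rw [hNG] at h5
        omega
  have hT := hM.IH G' U hex (Or.inr ⟨rfl, by omega⟩)
  exact hM.bad (hT.mono hle (fun _ _ => rfl))

/-- The interface of the global part, from the exits of the fold. -/
theorem GMin.gcore [Finite V] {G : SimpleGraph V} {U : Set V}
    (hM : GMin G U) (hcut : Cut G U) (hdeg : ∀ y ∈ U, 3 ≤ (G.neighborSet y).ncard)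
    (hfold : ∀ y p q c, y ∈ U → p ≠ q → p ≠ c → q ≠ c → ¬ G.Adj p q →
      G.neighborSet y = {p, q, c} →
      (∃ z1 z2, z1 ≠ z2 ∧ z1 ≠ y ∧ z2 ≠ y ∧ G.Adj p z1 ∧ G.Adj q z1 ∧ G.Adj p z2 ∧
        G.Adj q z2) ∨
      (∃ A ⊆ U, ∃ κ : V → ZMod 2, Bal G κ A ∧ (Nb G A).ncard = 4 ∧ p ∈ Nb G A ∧ q ∈ Nb G A ∧
        κ p = κ q ∧ y ∉ A ∧ c ∉ A ∧ (c ∈ Nb G A → κ c ≠ κ p) ∧
        ∀ w ∈ A, ¬ (G.Adj w p ∧ G.Adj w q)) ∨
      (∃ A ⊆ U, ∃ κ : V → ZMod 2, Bal G κ A ∧ (Nb G A).ncard = 4 ∧ p ∈ A ∧ q ∈ A ∧ y ∉ A ∧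
        c ∉ A ∧ c ∉ Nb G A ∧ ∀ w, w ≠ y → ¬ (G.Adj w p ∧ G.Adj w q)) ∨
      (∃ W κ, O3W G U κ W y p q c)) : GCore G U where
  edge_mem := hM.ex.edge_mem
  deg3 := hdeg
  P1 := (hM.i4 hcut hdeg).gP1
  P2 := (hM.i4 hcut hdeg).gP2 hM.bad
  I4 := hcut
  ind3 := (hM.i4 hcut hdeg).gind3
  T3 := (hM.i4 hcut hdeg).gT3 hM.bad
  F1 := (hM.i4 hcut hdeg).gF1 hM.bad
  TYPE1 := (hM.i4 hcut hdeg).gTYPE1 hM.bad
  L1 := by
    intro w1 w2 y a b c e g κ0 hb _ _ _ hab
    exact (hM.i4 hcut hdeg).gL1 hM.bad w1 w2 y a b c e g κ0 hb hab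
  FOLD := hfold
  TRI := (hM.i4 hcut hdeg).gTRI hM.bad

end Pool.Agent.Helper57.TOP
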